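import Pool.Agent.helper55.VD.SpecE1

/-! # Row vd:EHD (conformal metrics) -/

set_option autoImplicit false

open scoped ContDiff Topology InnerProductSpace ComplexConjugate
open MeasureTheory Filter Set

namespace Pool.Agent.VD

noncomputable section

theorem EHD_equiv (d : ℕ) (A : V d →L[ℝ] V d) (hpos : ∀ u, u ≠ 0 → 0 < ⟪A u, u⟫_ℝ) :
    ∃ e : V d ≃L[ℝ] V d, (e : V d →L[ℝ] V d) = A := by
  have hinj : Function.Injective (A : V d →ₗ[ℝ] V d) := by
    rw [← LinearMap.ker_eq_bot, LinearMap.ker_eq_bot']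
    intro m hm
    by_contra hne
    have h1 := hpos m hne
    have h2 : A m = 0 := hm
    rw [h2, inner_zero_left] at h1
    exact lt_irrefl _ h1
  refine ⟨(LinearEquiv.ofInjectiveEndo (A : V d →ₗ[ℝ] V d) hinj).toContinuousLinearEquiv, ?_⟩
  ext x
  simp

theorem EHD_detpos (d : ℕ) (A : V d →L[ℝ] V d) (hsym : ∀ u v, ⟪A u, v⟫_ℝ = ⟪u, A v⟫_ℝ) (hpos : ∀ u, u ≠ 0 → 0 < ⟪A u, u⟫_ℝ) :
    0 < A.det := by
  have hs : (A : V d →ₗ[ℝ] V d).IsSymmetric := fun u v => hsym u v
  have hn : Module.finrank ℝ (V d) = d := by simp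
  have h1 : A.det = ∏ i, (hs.eigenvalues hn i : ℝ) := by
    have := hs.det_eq_prod_eigenvalues hn
    simpa using this
  rw [h1]
  refine Finset.prod_pos fun i _ => ?_
  have h2 := hs.apply_eigenvectorBasis hn i
  have h3 := hpos (hs.eigenvectorBasis hn i) (by
    intro h0
    have h4 := (hs.eigenvectorBasis hn).orthonormal.1 i
    rw [h0, norm_zero] at h4
    exact zero_ne_one h4)
  have h2' : A (hs.eigenvectorBasis hn i) = (hs.eigenvalues hn i : ℝ) • hs.eigenvectorBasis hn i := h2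
  rw [h2', inner_smul_left, real_inner_self_eq_norm_sq, (hs.eigenvectorBasis hn).orthonormal.1 i] at h3
  simpa using h3

theorem EHD_detsmooth (d : ℕ) (G : V d → V d →L[ℝ] V d) (hG : ContDiff ℝ ∞ G) : ContDiff ℝ ∞ fun x => (G x).det := by
  have h1 : ∀ x, (G x).det = ∑ σ : Equiv.Perm (Fin d), ((Equiv.Perm.sign σ : ℤ) : ℝ) * ∏ i, ⟪(EuclideanSpace.basisFun (Fin d) ℝ) (σ i), G x ((EuclideanSpace.basisFun (Fin d) ℝ) i)⟫_ℝ := by
    intro x
    have h2 : (G x).det = (LinearMap.toMatrix (EuclideanSpace.basisFun (Fin d) ℝ).toBasis (EuclideanSpace.basisFun (Fin d) ℝ).toBasis (G x : V d →ₗ[ℝ] V d)).det := by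
      rw [LinearMap.det_toMatrix]
    rw [h2, Matrix.det_apply']
    refine Finset.sum_congr rfl fun σ _ => ?_
    congr 1
    refine Finset.prod_congr rfl fun i _ => ?_
    rw [LinearMap.toMatrix_apply]
    simp [EuclideanSpace.inner_single_left]
  rw [show (fun x => (G x).det) = fun x => ∑ σ : Equiv.Perm (Fin d), ((Equiv.Perm.sign σ : ℤ) : ℝ) * ∏ i, ⟪(EuclideanSpace.basisFun (Fin d) ℝ) (σ i), G x ((EuclideanSpace.basisFun (Fin d) ℝ) i)⟫_ℝ from funext h1]
  refine ContDiff.sum fun σ _ => contDiff_const.mul (contDiff_prod fun i _ => ?_)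
  exact contDiff_const.inner ℝ (hG.clm_apply contDiff_const)

theorem EHD_scale (d : ℕ) (G : V d → V d →L[ℝ] V d) (hG : IsMetric G) (f : V d → ℝ) (hf : ContDiff ℝ ∞ f) : IsMetric (fun x => Real.exp (f x) • G x) := by
  refine ⟨(Real.contDiff_exp.comp hf).smul hG.smooth, ?_, ?_⟩
  · intro x u v
    simp only [_root_.smul_apply]
    rw [real_inner_smul_left, real_inner_smul_right, hG.symm x u v]
  · intro x u hu
    simp only [_root_.smul_apply]
    rw [real_inner_smul_left]
    exact mul_pos (Real.exp_pos _) (hG.pos x u hu)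

theorem EHD_dens (d : ℕ) (G : V d → V d →L[ℝ] V d) (f : V d → ℝ) (x : V d) : dens (fun x => Real.exp (f x) • G x) x = Real.exp ((d : ℝ) / 2 * f x) * dens G x := by
  unfold dens
  have h1 : (Real.exp (f x) • G x).det = (Real.exp ((d : ℝ) / 2 * f x)) ^ 2 * (G x).det := by
    have h2 : (Real.exp (f x) • G x).det = Real.exp (f x) ^ d * (G x).det := by
      have h3 := LinearMap.det_smul (Real.exp (f x)) (G x : V d →ₗ[ℝ] V d)
      have hn : Module.finrank ℝ (V d) = d := by simp
      rw [hn] at h3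
      exact h3
    rw [h2, ← Real.exp_nat_mul, ← Real.exp_nat_mul]
    congr 2
    push_cast
    ring
  show Real.sqrt (Real.exp (f x) • G x).det = _
  rw [h1, Real.sqrt_mul (sq_nonneg _), Real.sqrt_sq (Real.exp_pos _).le]

theorem EHD_proof : EHD_stmt := by
  intro d G hG
  have hE : ∀ x, ∃ e : V d ≃L[ℝ] V d, (e : V d →L[ℝ] V d) = G x := fun x => EHD_equiv d (G x) (hG.pos x)
  have hinv : ∀ x u, G x ((G x).inverse u) = u ∧ (G x).inverse (G x u) = u := by
    intro x u
    obtain ⟨e, he⟩ := hE x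
    rw [← he, ContinuousLinearMap.inverse_equiv]
    simp
  have hdet : ∀ x, 0 < (G x).det := fun x => EHD_detpos d (G x) (hG.symm x) (hG.pos x)
  refine ⟨fun x => ⟨hdet x, Real.sqrt_pos.2 (hdet x)⟩, ?_, ?_, hinv, ?_, ?_, ?_⟩
  · exact (EHD_detsmooth d G hG.smooth).sqrt fun x => (hdet x).ne'
  · rw [contDiff_iff_contDiffAt]
    intro x
    obtain ⟨e, he⟩ := hE x
    have h1 : ContDiffAt ℝ ∞ ContinuousLinearMap.inverse (G x) := by
      rw [← he]
      exact contDiffAt_map_inverse e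
    exact h1.comp x hG.smooth.contDiffAt
  · intro x u v
    have h1 : ⟪(G x).inverse u, v⟫_ℝ = ⟪(G x).inverse u, G x ((G x).inverse v)⟫_ℝ := by rw [(hinv x v).1]
    rw [h1, ← hG.symm x, (hinv x u).1]
  · intro x u hu
    have h1 : (G x).inverse u ≠ 0 := by
      intro h0
      have h2 := (hinv x u).1
      rw [h0, map_zero] at h2
      exact hu h2.symm
    have h3 := hG.pos x _ h1
    rw [(hinv x u).1, real_inner_comm] at h3
    exact h3
  · intro f hf
    refine ⟨EHD_scale d G hG f hf, fun x => ⟨EHD_dens d G f x, ?_⟩⟩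
    obtain ⟨e, he⟩ := EHD_equiv d (Real.exp (f x) • G x) ((EHD_scale d G hG f hf).pos x)
    rw [← he, ContinuousLinearMap.inverse_equiv]
    ext1 u
    have h1 : e (Real.exp (-(f x)) • (G x).inverse u) = u := by
      have h2 : e (Real.exp (-(f x)) • (G x).inverse u) = (e : V d →L[ℝ] V d) (Real.exp (-(f x)) • (G x).inverse u) := rfl
      rw [h2, he, _root_.smul_apply, map_smul, (hinv x u).1, smul_smul, ← Real.exp_add]
      simp
    show e.symm u = Real.exp (-(f x)) • (G x).inverse u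
    rw [ContinuousLinearEquiv.symm_apply_eq, h1]

end

end Pool.Agent.VD
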