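import Pool.Agent.helper47.VD.SpecA1b

/-! # Row vd:AQSE (duality of analysis and synthesis) -/

set_option autoImplicit false

open scoped ContDiff Topology InnerProductSpace ComplexConjugate ENNReal
open MeasureTheory Filter Set

namespace Pool.Agent.VD

open Pool.Agent.VQ (CH)

noncomputable section

theorem AQSE_fin {d : ℕ} {Γ : Type} [Group Γ] [Countable Γ] [MulAction Γ (V d)] (h5 : AMYS_stmt) (G : V d → V d →L[ℝ] V d) (r0 R : ℝ)
    (hGW : MeasurableSet (GW Γ G r0 2 R)) (hvol : volume {p : P d | ‖p.1‖ ≤ r0 ∧ |Ep G p| ≤ 2 * R ^ (-(1 / 4) : ℝ)} < ⊤) (S : Finset Γ) (c : ℝ≥0∞) (hc : c ≠ ⊤) :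
    ∫⁻ y in DT d (S : Set Γ), (GW Γ G r0 2 R).indicator (fun _ => c) y ∂mY Γ d < ⊤ := by
  obtain ⟨-, -, -, h, -, -⟩ := h5 d Γ
  rw [h (S : Set Γ) _ (measurable_const.indicator hGW), tsum_fintype]
  refine ENNReal.sum_lt_top.2 fun γ _ => ?_
  have h1 : ∀ p : P d, (GW Γ G r0 2 R).indicator (fun _ => c) (((γ : Γ), p) : YS Γ d) =
      {p : P d | ‖p.1‖ ≤ r0 ∧ |Ep G p| ≤ 2 * R ^ (-(1 / 4) : ℝ)}.indicator (fun _ => c) p := fun p => rfl
  calc ∫⁻ p : P d, (GW Γ G r0 2 R).indicator (fun _ => c) (((γ : Γ), p) : YS Γ d)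
      = ∫⁻ p : P d, {p : P d | ‖p.1‖ ≤ r0 ∧ |Ep G p| ≤ 2 * R ^ (-(1 / 4) : ℝ)}.indicator (fun _ => c) p := lintegral_congr h1
    _ ≤ c * volume {p : P d | ‖p.1‖ ≤ r0 ∧ |Ep G p| ≤ 2 * R ^ (-(1 / 4) : ℝ)} := lintegral_indicator_const_le _ _
    _ < ⊤ := ENNReal.mul_lt_top hc.lt_top hvol

theorem AQSE_proof (h1 : AQSA_stmt) (h2 : AQSN_stmt) (h3 : AUNF_stmt) (h4 : ADMD_stmt) (h5 : AMYS_stmt) (h6 : AFHB_stmt) (h7 : AMVI_stmt) : AQSE_stmt := by
  intro d Γ _ _ K k B r0 χ ch ζ hK hPU hCH hζ hζ8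
  obtain ⟨R1, hR1, hA⟩ := h1 d Γ K k B r0 χ ch ζ hK hPU hCH hζ hζ8
  obtain ⟨R2, hR2, hN⟩ := h2 d Γ K k B r0 χ ch ζ hK hPU hCH hζ hζ8
  refine ⟨max R1 R2, hR1.trans (le_max_left _ _), ?_⟩
  intro R G hR hG Λ F T hD φ v hφ hv
  obtain ⟨-, -, -, hinv, hmeas, -⟩ := hA R G ((le_max_left _ _).trans hR) hG
  obtain ⟨hint, -, hL1⟩ := hN R G ((le_max_right _ _).trans hR) hG
  have hcount : Countable Γ := (h7 d Γ K k B G hK hG).1
  obtain ⟨-, -, -, -, hGWs, -⟩ := h4 d Γ K k B G hK hG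
  obtain ⟨hGW, hGWi, hvol⟩ := hGWs r0 2 R
  obtain ⟨⟨M, hM⟩, -⟩ := (h6 d Γ K k B G hK hG Λ F T hD).1 φ hφ
  obtain ⟨b, hb⟩ := hv.bdd
  obtain ⟨S, hS⟩ := hv.supp
  have hM0 : 0 ≤ M := (norm_nonneg _).trans (hM 0)
  have hb0 : 0 ≤ b := (norm_nonneg _).trans (hb ((1 : Γ), (0 : P d)))
  have hDTm : ∀ T : Set Γ, MeasurableSet (DT d T) := (h5 d Γ).2.2.1
  set a : YS Γ d → ℂ := (GW Γ G r0 2 R).indicator (fun y => conj (v y)) with ha
  have haN : ∀ y, ‖a y‖ ≤ b := by
    intro y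
    rw [ha]
    refine (norm_indicator_le_norm_self _ _).trans ?_
    rw [RCLike.norm_conj]
    exact hb y
  have ham : Measurable a := (Complex.continuous_conj.measurable.comp hv.meas).indicator hGW
  have key := (h3 d Γ K k B G hK hG Λ F T hD).2 (fun y z => a y * (φ z * conj (Gp G χ ch ζ R y z))) ?_ ?_ ?_
  · have e1 : ∀ y : YS Γ d, ∫ z, a y * (φ z * conj (Gp G χ ch ζ R y z)) ∂mv G = (GW Γ G r0 2 R).indicator (fun y => QF G χ ch ζ R φ y * conj (v y)) y := by
      intro y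
      rw [integral_const_mul, ha]
      by_cases hy : y ∈ GW Γ G r0 2 R
      · rw [Set.indicator_of_mem hy, Set.indicator_of_mem hy, mul_comm]
        rfl
      · rw [Set.indicator_of_notMem hy, Set.indicator_of_notMem hy, zero_mul]
    have e2 : ∀ z : V d, ∫ y, a y * (φ z * conj (Gp G χ ch ζ R y z)) ∂mY Γ d = φ z * conj (Qs G r0 χ ch ζ R v z) := by
      intro z
      have e3 : ∀ y : YS Γ d, a y * (φ z * conj (Gp G χ ch ζ R y z)) = φ z * (GW Γ G r0 2 R).indicator (fun y => conj (v y * Gp G χ ch ζ R y z)) y := by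
        intro y
        rw [ha]
        by_cases hy : y ∈ GW Γ G r0 2 R
        · rw [Set.indicator_of_mem hy, Set.indicator_of_mem hy, map_mul]
          ring
        · rw [Set.indicator_of_notMem hy, Set.indicator_of_notMem hy, zero_mul, mul_zero]
      rw [integral_congr_ae (Eventually.of_forall e3), integral_const_mul, integral_indicator hGW, integral_conj]
      rfl
    rw [integral_congr_ae (Eventually.of_forall e1)] at key
    rw [← setIntegral_indicator hGW, key]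
    exact integral_congr_ae (Eventually.of_forall e2)
  · have m1 : Measurable fun x : YS Γ d × V d => a x.1 := ham.comp measurable_fst
    have m2 : Measurable fun x : YS Γ d × V d => φ x.2 := hφ.cont.measurable.comp measurable_snd
    have m3 : Measurable fun x : YS Γ d × V d => conj (Gp G χ ch ζ R x.1 x.2) := Complex.continuous_conj.measurable.comp hmeas
    exact m1.mul (m2.mul m3)
  · intro κ hκ y z
    have h8 : a (κ • y) = a y := by
      rw [ha]
      by_cases hy : y ∈ GW Γ G r0 2 R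
      · rw [Set.indicator_of_mem hy, Set.indicator_of_mem ((hGWi κ y).2 hy), hv.inv κ hκ]
      · rw [Set.indicator_of_notMem hy, Set.indicator_of_notMem (fun h => hy ((hGWi κ y).1 h))]
    show a (κ • y) * (φ (κ • z) * conj (Gp G χ ch ζ R (κ • y) (κ • z))) = a y * (φ z * conj (Gp G χ ch ζ R y z))
    rw [h8, hφ.inv κ hκ, hinv]
  · have hlt : ∫⁻ y in DT d T, ∫⁻ z, ‖a y * (φ z * conj (Gp G χ ch ζ R y z))‖ₑ ∂mv G ∂mY Γ d < ⊤ := by
      have hpt : ∀ y ∈ DT d T, ∫⁻ z, ‖a y * (φ z * conj (Gp G χ ch ζ R y z))‖ₑ ∂mv G ≤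
          (DT d (S : Set Γ)).indicator ((GW Γ G r0 2 R).indicator (fun _ => ENNReal.ofReal (b * M) * ENNReal.ofReal (R ^ ((d : ℝ) / 4 + ζ)))) y := by
        intro y hy
        by_cases h0 : a y = 0
        · have : ∫⁻ z, ‖a y * (φ z * conj (Gp G χ ch ζ R y z))‖ₑ ∂mv G = 0 := by
            simp [h0]
          rw [this]
          exact zero_le
        · have hyW : y ∈ GW Γ G r0 2 R := by
            by_contra hn
            apply h0
            rw [ha, Set.indicator_of_notMem hn]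
          have hyS : y ∈ DT d (S : Set Γ) := by
            refine hS y hy ?_
            intro hn
            apply h0
            rw [ha, Set.indicator_of_mem hyW, hn, map_zero]
          rw [Set.indicator_of_mem hyS, Set.indicator_of_mem hyW]
          calc ∫⁻ z, ‖a y * (φ z * conj (Gp G χ ch ζ R y z))‖ₑ ∂mv G ≤ ∫⁻ z, ENNReal.ofReal (b * M) * ‖Gp G χ ch ζ R y z‖ₑ ∂mv G := by
                refine lintegral_mono fun z => ?_
                show ‖a y * (φ z * conj (Gp G χ ch ζ R y z))‖ₑ ≤ ENNReal.ofReal (b * M) * ‖Gp G χ ch ζ R y z‖ₑ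
                rw [← ofReal_norm, ← ofReal_norm, ← ENNReal.ofReal_mul (mul_nonneg hb0 hM0)]
                refine ENNReal.ofReal_le_ofReal ?_
                rw [norm_mul, norm_mul, RCLike.norm_conj, ← mul_assoc]
                exact mul_le_mul_of_nonneg_right (mul_le_mul (haN y) (hM z) (norm_nonneg _) hb0) (norm_nonneg _)
            _ = ENNReal.ofReal (b * M) * ∫⁻ z, ‖Gp G χ ch ζ R y z‖ₑ ∂mv G := lintegral_const_mul' _ _ ENNReal.ofReal_ne_top
            _ ≤ ENNReal.ofReal (b * M) * ENNReal.ofReal (R ^ ((d : ℝ) / 4 + ζ)) := by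
                rw [← ofReal_integral_norm_eq_lintegral_enorm (hint y)]
                gcongr
                exact hL1 y
      refine lt_of_le_of_lt (setLIntegral_mono' (hDTm T) hpt) ?_
      refine lt_of_le_of_lt (setLIntegral_le_lintegral _ _) ?_
      rw [lintegral_indicator (hDTm _)]
      exact AQSE_fin h5 G r0 R hGW hvol S _ (ENNReal.mul_ne_top ENNReal.ofReal_ne_top ENNReal.ofReal_ne_top)
    exact hlt.ne

end

end Pool.Agent.VD
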