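import Pool.Agent.helper80.VD.SpecG

/-! # Row vd:GQD (derivatives along the geodesic flow) -/

set_option autoImplicit false

open scoped ContDiff Topology InnerProductSpace
open MeasureTheory Filter Set

namespace Pool.Agent.VD

noncomputable section

theorem GQD_a (d : ℕ) (G : V d → V d →L[ℝ] V d) (v : P d → V d) (hC7 : ContDiff ℝ ∞ (fun q : V d × V d × V d => ChT G q.1 q.2.1 q.2.2))
    (hvs : ContDiff ℝ ∞ v) : ContDiff ℝ ∞ (fun p : P d => ChT G p.1 (v p) p.2) := by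
  have ha : ContDiff ℝ ∞ (fun p : P d => p.1) := contDiff_fst
  have hb : ContDiff ℝ ∞ (fun p : P d => p.2) := contDiff_snd
  have hc : ContDiff ℝ ∞ (fun p : P d => (v p, p.2)) := hvs.prodMk hb
  have h2 : ContDiff ℝ ∞ (fun p : P d => (p.1, (v p, p.2))) := ha.prodMk hc
  have h3 := ContDiff.comp hC7 h2
  exact h3

theorem GQD_b (d : ℕ) (G : V d → V d →L[ℝ] V d) (v : P d → V d) (hC7 : ContDiff ℝ ∞ (fun q : V d × V d × V d => ChT G q.1 q.2.1 q.2.2))
    (hvs : ContDiff ℝ ∞ v) (X : P d → P d) (hX1 : ∀ p, (X p).1 = v p) (hX2 : ∀ p, (X p).2 = ChT G p.1 (v p) p.2) : ContDiff ℝ ∞ X := by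
  have h1 : X = fun p : P d => (v p, ChT G p.1 (v p) p.2) := by
    funext p
    exact Prod.ext (hX1 p) (hX2 p)
  rw [h1]
  exact hvs.prodMk (GQD_a d G v hC7 hvs)

theorem GQD_proof (hGIN : GIN_stmt) (hGCH : GCH_stmt) (hGVL : GVL_stmt) (hGJC : GJC_stmt) : GQD_stmt := by
  intro d G hG c q q' t hq hq'
  obtain ⟨hI1, hI2, -, hI4, -⟩ := hGIN d G hG
  obtain ⟨-, -, -, -, hC5, hC6, hC7, -⟩ := hGCH d G hG
  obtain ⟨hV1, -, hV3, hV4, hV5, -⟩ := hGVL d G hG
  obtain ⟨hJ1, hJ2⟩ := hGJC d G hG c q t hq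
  obtain ⟨hJ1', hJ2'⟩ := hGJC d G hG c q' t hq'
  have hc1 : HasDerivAt (fun s => (c s).1) (vel G (c t)) t := hq.1.fst
  have hc2 : HasDerivAt (fun s => (c s).2) (ChT G (c t).1 (vel G (c t)) (c t).2) t := by
    have h1 : HasDerivAt (fun s => (c s).2) (XH G (c t)).2 t := hq.1.snd
    rwa [hV3] at h1
  have hGd : HasDerivAt (fun s => G (c s).1) (fderiv ℝ G (c t).1 (vel G (c t))) t :=
    ((hG.smooth.differentiable (by simp)).differentiableAt.hasFDerivAt).comp_hasDerivAt t hc1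
  have hId : HasDerivAt (fun s => IG G (c s).1) (fderiv ℝ (IG G) (c t).1 (vel G (c t))) t :=
    ((hI4.differentiable (by simp)).differentiableAt.hasFDerivAt).comp_hasDerivAt t hc1
  have hvel : vel G (c t) = IG G (c t).1 (c t).2 := rfl
  refine ⟨?_, ?_, ?_, ?_, ?_⟩
  · have h1 := hJ2.inner ℝ hJ1
    refine h1.congr_deriv ?_
    rw [inner_sub_right, inner_sub_left, hC6, ← hI2]
    ring
  · have h1 := (hGd.clm_apply hJ1).inner ℝ hJ1'
    refine h1.congr_deriv ?_
    rw [inner_sub_right, inner_add_left, hC5, map_sub, inner_sub_left, (hI1 _ _).2, ← hI2, (hI1 _ _).1,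
      real_inner_comm (Wc G (c t) (q' t))]
    ring
  · have h1 := (hId.clm_apply hJ2).inner ℝ hJ2'
    refine h1.congr_deriv ?_
    rw [inner_sub_right, inner_add_left, hV1, map_sub, (hI1 _ _).1, inner_sub_left, inner_sub_left, inner_neg_left,
      real_inner_comm (ChT G (c t).1 (vel G (c t)) (Wc G (c t) (q' t))), hC6, ← hG.symm, (hI1 _ _).2,
      real_inner_comm (Riem G (c t).1 (q' t).1 (vel G (c t)) (vel G (c t))),
      real_inner_comm (Wc G (c t) (q' t))]
    ring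
  · have h1 := hc2.inner ℝ hJ1
    refine h1.congr_deriv ?_
    rw [inner_sub_right, hC6, ← hI2, ← hvel, real_inner_comm (Wc G (c t) (q t))]
    ring
  · have hHam : ContDiff ℝ ∞ (Ham G) := by
      have h1 : ContDiff ℝ ∞ (fun p : P d => ⟪IG G p.1 p.2, p.2⟫_ℝ / 2) :=
        (((hI4.comp contDiff_fst).clm_apply contDiff_snd).inner ℝ contDiff_snd).div_const 2
      exact h1
    have hvs : ContDiff ℝ ∞ (vel G) := (hI4.comp contDiff_fst).clm_apply contDiff_snd
    have hXH : ContDiff ℝ ∞ (XH G) := GQD_b d G (vel G) hC7 hvs (XH G) (fun p => rfl) hV3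
    have hzero : ∀ p : P d, fderiv ℝ (Ham G) p (XH G p) = 0 := by
      intro p
      rw [← hV5, (hV4 p).1, inner_zero_left]
    have hHd : Differentiable ℝ (fderiv ℝ (Ham G)) := (hHam.fderiv_right (m := ∞) (by simp)).differentiable (by simp)
    have hXd : Differentiable ℝ (XH G) := hXH.differentiable (by simp)
    have h1 : HasDerivAt (fun s => fderiv ℝ (Ham G) (c s) (q s))
        (fderiv ℝ (fderiv ℝ (Ham G)) (c t) (XH G (c t)) (q t) + fderiv ℝ (Ham G) (c t) (fderiv ℝ (XH G) (c t) (q t))) t :=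
      ((hHd (c t)).hasFDerivAt.comp_hasDerivAt t hq.1).clm_apply hq.2
    have h2 : HasFDerivAt (fun p => fderiv ℝ (Ham G) p (XH G p)) (0 : P d →L[ℝ] ℝ) (c t) := by
      have : (fun p => fderiv ℝ (Ham G) p (XH G p)) = fun _ => (0 : ℝ) := funext hzero
      rw [this]
      exact hasFDerivAt_const _ _
    have h3 := ((hHd (c t)).hasFDerivAt.clm_apply (hXd (c t)).hasFDerivAt).unique h2
    have h4 := congrArg (fun L : P d →L[ℝ] ℝ => L (q t)) h3
    have h5 : fderiv ℝ (fderiv ℝ (Ham G)) (c t) (XH G (c t)) (q t) = fderiv ℝ (fderiv ℝ (Ham G)) (c t) (q t) (XH G (c t)) :=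
      (hHam.contDiffAt.isSymmSndFDerivAt (by
        rw [minSmoothness_of_isRCLikeNormedField]
        exact ENat.LEInfty.out)) _ _
    have h6 : (fun s => ⟪Wc G (c s) (q s), vel G (c s)⟫_ℝ) = fun s => fderiv ℝ (Ham G) (c s) (q s) := by
      funext s
      exact hV5 _ _
    rw [h6]
    refine h1.congr_deriv ?_
    rw [h5]
    simpa [add_comm] using h4

end

end Pool.Agent.VD
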