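import Pool.Agent.helper11.VD.Spec3e

/-! # Row vd:MTD (measurability) -/

set_option autoImplicit false

open scoped ContDiff Topology InnerProductSpace ENNReal ComplexConjugate
open MeasureTheory Filter Set

namespace Pool.Agent.VD

open Pool.Agent.RPQ (PN PJ UN upd IsOp nst)
open Pool.Agent.VQ (CH PS KZ perZ cmZ stZ wdZ InvS AdZ vz mZ wM qZ phZ rk)
open Pool.Agent.VN (aN)
open Pool.Agent.VDE (UWLD FDX)

noncomputable section

theorem MTD_int {d : ℕ} (Φ : ℝ → P d → P d) (hΦ : Continuous fun q : ℝ × P d => Φ q.1 q.2) (f : V d → ℝ) (hf : Continuous f) (t : ℝ) :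
    Continuous fun p : P d => ∫ s in (0 : ℝ)..t, f (Φ s p).1 := by
  refine intervalIntegral.continuous_parametric_intervalIntegral_of_continuous' (f := fun (p : P d) (s : ℝ) => f (Φ s p).1) ?_ 0 t
  have h1 : Continuous fun q : P d × ℝ => Φ q.2 q.1 := hΦ.comp (continuous_snd.prodMk continuous_fst)
  exact hf.comp (continuous_fst.comp h1)

theorem MTD_meas {d : ℕ} (Γ : Type) (g : P d → ℝ) (hg : Continuous g) : Measurable fun y : YS Γ d => g y.2 :=
  hg.measurable.comp (@measurable_snd Γ (P d) ⊤ _)

theorem MTD_proof (hGXH : GXH_stmt) : MTD_stmt := by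
  intro d Γ _ G Φ F0 f r0 R t e c hG hΦ hf
  have hΦc : Continuous fun q : ℝ × P d => Φ q.1 q.2 := hΦ.smooth.continuous
  have h1 : Continuous (thP Φ f R t) := continuous_const.mul (MTD_int Φ hΦc f hf t)
  have h2 : Continuous (avP Φ f t) := continuous_const.mul (MTD_int Φ hΦc f hf t)
  have h3 : Continuous (Ep G) := (hGXH d G hG).1.continuous.sub continuous_const
  have h4 : Continuous fun p : P d => ‖p.1‖ := continuous_norm.comp continuous_fst
  have h5 : Continuous fun p : P d => |Ep G p| := continuous_abs.comp h3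
  have h6 : Continuous fun p : P d => |avP Φ f t p - mean G F0 f| := continuous_abs.comp (h2.sub continuous_const)
  refine ⟨h1, h2, h3, MTD_meas Γ, ?_, ?_, ?_, ?_, ?_⟩
  · exact (measurableSet_le (MTD_meas Γ _ h4) measurable_const).inter (measurableSet_le (MTD_meas Γ _ h5) measurable_const)
  · exact measurableSet_le measurable_const (MTD_meas Γ _ h6)
  · intro γ y
    exact Iff.rfl
  · intro γ y
    exact Iff.rfl
  · exact (measurableSet_le h4.measurable measurable_const).inter (measurableSet_le h5.measurable measurable_const)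

end

end Pool.Agent.VD
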