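import Pool.Agent.helper99.VD.SpecV

/-! # Row vd:NTA (nets of bumps) -/

set_option autoImplicit false

open scoped ContDiff Topology InnerProductSpace ENNReal
open MeasureTheory Filter Set

namespace Pool.Agent.VD

noncomputable section

theorem NTA_cth {d : ℕ} {K : Set (V d)} {x y : V d} (hy : y ∈ K) {r : ℝ} (hr : r ≤ 1) (h : ‖x - y‖ ≤ r) : x ∈ Metric.cthickening 1 K := by
  refine Metric.mem_cthickening_of_dist_le x y 1 K hy ?_
  rw [dist_eq_norm]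
  exact h.trans hr

theorem NTA_proof (hUNK : UNK_stmt) (hDVV : DVV_stmt) : NTA_stmt := by
  intro d Γ _ _ K χ hK hχ
  obtain ⟨-, C1, c1, m, hC1, hc1, hc18, hm, hlow, hup⟩ := hUNK d Γ K χ hK hχ
  have hinv : ∀ (γ : Γ) (x y : V d), dV Γ χ (γ • x) (γ • y) = dV Γ χ x y := (hDVV d Γ K χ hK hχ).2.2.2.2.2.1
  refine ⟨max (4 * C1) (1 / c1), le_trans (by linarith) (le_max_left _ _), ?_⟩
  intro Cn ρ J p b G Φ act C' c0 hN hρ hρ1 hΦ hC'
  have hA : 4 * C1 ≤ C' := (le_max_left _ _).trans hC'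
  have hB : 1 / c1 ≤ C' := (le_max_right _ _).trans hC'
  have hC'0 : 0 < C' := by linarith
  refine @NetA.mk Γ (V d) (PhS Γ d) _ _ act C' c0 ρ (SYD Γ χ G Φ) J b ?_ ?_ ?_ ?_
  · intro j x
    exact (hN.bd j x).1
  · intro j q _
    have h1 : Continuous fun s : ℝ => Φ s q :=
      hΦ.smooth.continuous.comp (continuous_id.prodMk continuous_const)
    exact (hN.smooth j).continuous.comp (continuous_fst.comp h1)
  · intro x
    obtain ⟨γ, hγ⟩ := hK.cover x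
    obtain ⟨j, hj⟩ := hN.cover (γ • x) hγ
    refine ⟨j, fun x' hx' => ?_⟩
    have hx2 : dV Γ χ x x' ≤ ρ / C' := hx'
    have h1 : dV Γ χ (γ • x) (γ • x') ≤ ρ / C' := by rw [hinv]; exact hx2
    have h2 : ρ / C' ≤ c1 := by
      rw [div_le_iff₀ hC'0]
      rw [div_le_iff₀ hc1] at hB
      nlinarith
    obtain ⟨h3, -⟩ := hlow (γ • x) (γ • x') hγ (h1.trans h2)
    have h4 : C1 * dV Γ χ (γ • x) (γ • x') ≤ ρ / 4 := by
      have h5 : C1 * dV Γ χ (γ • x) (γ • x') ≤ C1 * (ρ / C') := mul_le_mul_of_nonneg_left h1 (by linarith)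
      have h6 : C1 * (ρ / C') ≤ ρ / 4 := by
        rw [← mul_div_assoc, div_le_div_iff₀ hC'0 (by norm_num)]
        nlinarith
      exact h5.trans h6
    have h7 : ‖γ • x' - p j‖ ≤ ρ / 2 := by
      have h8 : γ • x' - p j = (γ • x - p j) - (γ • x - γ • x') := by abel
      rw [h8]
      exact (norm_sub_le _ _).trans (by linarith)
    exact (hN.one j x' γ h7).ge
  · intro j x x' hx hx'
    obtain ⟨γ1, h1⟩ := hN.supp j x hx
    obtain ⟨γ2, h2⟩ := hN.supp j x' hx'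
    refine ⟨γ1⁻¹ * γ2, ?_⟩
    have h3 : dV Γ χ (γ1 • x) (γ2 • x') ≤ C1 * ‖γ1 • x - γ2 • x'‖ :=
      hup _ _ (hm _ (NTA_cth (hN.pK j) hρ1 h1)) (hm _ (NTA_cth (hN.pK j) hρ1 h2))
    have h4 : ‖γ1 • x - γ2 • x'‖ ≤ 2 * ρ := by
      have h5 : γ1 • x - γ2 • x' = (γ1 • x - p j) - (γ2 • x' - p j) := by abel
      rw [h5]
      exact (norm_sub_le _ _).trans (by linarith)
    have h6 : dV Γ χ x ((γ1⁻¹ * γ2) • x') = dV Γ χ (γ1 • x) (γ2 • x') := by
      rw [← hinv γ1 x, smul_smul, mul_inv_cancel_left]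
    show dV Γ χ x ((γ1⁻¹ * γ2) • x') ≤ C' * ρ
    rw [h6]
    have h7 : C1 * ‖γ1 • x - γ2 • x'‖ ≤ C1 * (2 * ρ) := mul_le_mul_of_nonneg_left h4 (by linarith)
    nlinarith

end

end Pool.Agent.VD
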