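import Pool.Agent.helper99.VD.SpecU

/-!
# Project VD (MP_07c750_an), row vd:UNDA: the total volume of the undetected chains
-/

set_option autoImplicit false

open scoped ENNReal
open MeasureTheory Filter Set

namespace Pool.Agent.VD

noncomputable section

/-- summation over the classes -/
theorem UNDA_sum (V ι : Type) [MeasurableSpace V] (μ : Measure V) (M : ℕ) (vol : ENNReal) (A : ι → Set V) (cl : ι → V → ℕ)
    (hcl : ∀ i, ∀ v ∈ A i, cl i v < M) (hinj : ∀ i i' v v', v ∈ A i → v' ∈ A i' → cl i v = cl i' v' → i = i')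
    (hvol : ∀ i, ∀ c < M, μ {v | v ∈ A i ∧ cl i v = c} ≤ vol) : ∑' i, μ (A i) ≤ M * vol := by
  have h1 : ∀ i, μ (A i) ≤ ∑ c ∈ Finset.range M, μ {v | v ∈ A i ∧ cl i v = c} := by
    intro i
    have hsub : A i ⊆ ⋃ c ∈ Finset.range M, {v | v ∈ A i ∧ cl i v = c} := by
      intro v hv
      rw [Set.mem_iUnion₂]
      exact ⟨cl i v, Finset.mem_range.2 (hcl i v hv), hv, rfl⟩
    exact (measure_mono hsub).trans (measure_biUnion_finset_le _ _)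
  have h2 : ∀ c ∈ Finset.range M, ∑' i, μ {v | v ∈ A i ∧ cl i v = c} ≤ vol := by
    intro c hc
    by_cases hex : ∃ i, ∃ v, v ∈ A i ∧ cl i v = c
    · obtain ⟨i, v, hv, hvc⟩ := hex
      rw [tsum_eq_single i]
      · exact hvol i c (Finset.mem_range.1 hc)
      · intro j hj
        have he : {v | v ∈ A j ∧ cl j v = c} = ∅ := by
          rw [Set.eq_empty_iff_forall_notMem]
          rintro v' ⟨hv', hv'c⟩
          exact hj (hinj j i v' v hv' hv (hv'c.trans hvc.symm))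
        rw [he, measure_empty]
    · have he : ∀ i, μ {v | v ∈ A i ∧ cl i v = c} = 0 := by
        intro i
        have he : {v | v ∈ A i ∧ cl i v = c} = ∅ := by
          rw [Set.eq_empty_iff_forall_notMem]
          rintro v' ⟨hv', hv'c⟩
          exact hex ⟨i, v', hv', hv'c⟩
        rw [he, measure_empty]
      rw [ENNReal.tsum_eq_zero.2 he]
      exact zero_le
  calc ∑' i, μ (A i) ≤ ∑' i, ∑ c ∈ Finset.range M, μ {v | v ∈ A i ∧ cl i v = c} := ENNReal.tsum_le_tsum h1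
    _ = ∑ c ∈ Finset.range M, ∑' i, μ {v | v ∈ A i ∧ cl i v = c} :=
        Summable.tsum_finsetSum fun _ _ => ENNReal.summable
    _ ≤ ∑ c ∈ Finset.range M, vol := Finset.sum_le_sum h2
    _ = M * vol := by rw [Finset.sum_const, Finset.card_range, nsmul_eq_mul]

theorem UNDA_last {Z : Type} {n : ℕ} (x z : Z) (v : Fin n → Z) : VQ.vz x z v (n + 1) = z := by
  simp [VQ.vz]

theorem UNDA_in {Z : Type} {n : ℕ} (x z : Z) (v : Fin n → Z) (i : Fin n) : VQ.vz x z v (i + 1) = v i := by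
  simp [VQ.vz]

theorem UNDA_smul {Γ X S : Type} [Group Γ] [MulAction Γ X] [MulAction Γ S] {C c0 : ℝ} (hc0 : 0 < c0) {Y : SY X S} (hY : OKS Γ C c0 Y)
    (γ γ' : Γ) (p : S) (h : γ • p = γ' • p) : γ = γ' := by
  have h1 : γ • Y.ps p = γ' • Y.ps p := by
    rw [← hY.psg, ← hY.psg, h]
  have h2 : (γ'⁻¹ * γ) • Y.ps p = Y.ps p := by
    rw [mul_smul, h1, inv_smul_smul]
  have h3 := hY.inj (γ'⁻¹ * γ) (Y.ps p) (by rw [h2, hY.dX0]; exact hc0.le)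
  exact (inv_mul_eq_one.1 h3).symm

theorem UNDA_core {Γ X S Z : Type} [Group Γ] [MulAction Γ X] [MulAction Γ S] [MulAction Γ Z] [MeasurableSpace Z] (m : Measure Z) [SigmaFinite m]
    {C c0 : ℝ} (hc0 : 0 < c0) {Y : SY X S} (hY : OKS Γ C c0 Y) (π : Z → S) (hπ : ∀ (γ : Γ) (z : Z), π (γ • z) = γ • π z)
    (r K t r' eps : ℝ) (V : ENNReal) {J : ℕ} (χ : Fin J → X → ℝ) (n nc M : ℕ) (Chn : (ℕ → Z) → Prop) (x z : Z) (w : ℕ → Z) (cl : (ℕ → S) → ℕ)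
    (hJP : ∀ w, Chn w → JPA Y t r (n + 1) (π ∘ w))
    (hrig : ∀ w w' : ℕ → Z, Chn w → Chn w' → w' 0 = w 0 → w' (n + 1) = w (n + 1) →
      (∀ s : ℝ, 0 ≤ s → s < ((n + 1 : ℕ) : ℝ) * t → Y.dS (frA Y t (π ∘ w) s) (frA Y t (π ∘ w') s) ≤ eps) → ∀ j ≤ n + 1, Y.dS (π (w j)) (π (w' j)) ≤ r')
    (hvol : ∀ z : Z, m {z' | Y.dS (π z) (π z') ≤ r'} ≤ V)
    (hcl : ∀ w' : ℕ → S, w' 0 = π x → (∃ γ : Γ, w' (n + 1) = γ • π z) → JPA Y t r (n + 1) w' → UndA Y χ K t (n + 1) nc (π ∘ w) w' → cl w' < M ∧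
        ∀ w'' : ℕ → S, w'' 0 = π x → (∃ γ : Γ, w'' (n + 1) = γ • π z) → JPA Y t r (n + 1) w'' → UndA Y χ K t (n + 1) nc (π ∘ w) w'' → cl w'' = cl w' →
          w'' (n + 1) = w' (n + 1) ∧ ∀ s : ℝ, 0 ≤ s → s < ((n + 1 : ℕ) : ℝ) * t → Y.dS (frA Y t w' s) (frA Y t w'' s) ≤ eps) :
    ∑' γ : Γ, VQ.mZ m n {v | Chn (VQ.vz x (γ • z) v) ∧ UndA Y χ K t (n + 1) nc (π ∘ w) (π ∘ VQ.vz x (γ • z) v)} ≤ M * V ^ n := by
  have hl : ∀ (γ : Γ) (v : Fin n → Z), (π ∘ VQ.vz x (γ • z) v) (n + 1) = γ • π z := fun γ v => by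
    show π (VQ.vz x (γ • z) v (n + 1)) = γ • π z
    rw [UNDA_last, hπ]
  refine UNDA_sum (Fin n → Z) Γ (VQ.mZ m n) M (V ^ n)
    (fun γ => {v | Chn (VQ.vz x (γ • z) v) ∧ UndA Y χ K t (n + 1) nc (π ∘ w) (π ∘ VQ.vz x (γ • z) v)})
    (fun γ v => cl (π ∘ VQ.vz x (γ • z) v)) ?_ ?_ ?_
  · intro γ v hv
    exact (hcl _ rfl ⟨γ, hl γ v⟩ (hJP _ hv.1) hv.2).1
  · intro γ γ' v v' hv hv' he
    have h := ((hcl _ rfl ⟨γ', hl γ' v'⟩ (hJP _ hv'.1) hv'.2).2 _ rfl ⟨γ, hl γ v⟩ (hJP _ hv.1) hv.2 he).1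
    rw [hl, hl] at h
    exact UNDA_smul hc0 hY γ γ' _ h
  · intro γ c _
    by_cases he : ∃ v₀ : Fin n → Z, v₀ ∈ {v | Chn (VQ.vz x (γ • z) v) ∧ UndA Y χ K t (n + 1) nc (π ∘ w) (π ∘ VQ.vz x (γ • z) v)} ∧ cl (π ∘ VQ.vz x (γ • z) v₀) = c
    · obtain ⟨v₀, hv₀, hc₀⟩ := he
      have hsub : {v : Fin n → Z | v ∈ {v | Chn (VQ.vz x (γ • z) v) ∧ UndA Y χ K t (n + 1) nc (π ∘ w) (π ∘ VQ.vz x (γ • z) v)} ∧ cl (π ∘ VQ.vz x (γ • z) v) = c} ⊆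
          Set.pi univ fun i => {z' | Y.dS (π (v₀ i)) (π z') ≤ r'} := by
        rintro v ⟨hv, hc⟩ i _
        have h := ((hcl _ rfl ⟨γ, hl γ v₀⟩ (hJP _ hv₀.1) hv₀.2).2 _ rfl ⟨γ, hl γ v⟩ (hJP _ hv.1) hv.2 (hc.trans hc₀.symm)).2
        have h2 := hrig _ _ hv₀.1 hv.1 rfl ((UNDA_last _ _ _).trans (UNDA_last _ _ _).symm) h
        have h3 := h2 (i + 1) (by omega)
        rw [UNDA_in x (γ • z) v i, UNDA_in x (γ • z) v₀ i] at h3
        exact h3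
      refine (measure_mono hsub).trans ?_
      rw [VQ.mZ, Measure.pi_pi]
      calc ∏ i : Fin n, m {z' | Y.dS (π (v₀ i)) (π z') ≤ r'} ≤ ∏ _i : Fin n, V := Finset.prod_le_prod' fun i _ => hvol _
        _ = V ^ n := by rw [Finset.prod_const, Finset.card_univ, Fintype.card_fin]
    · have : {v : Fin n → Z | v ∈ {v | Chn (VQ.vz x (γ • z) v) ∧ UndA Y χ K t (n + 1) nc (π ∘ w) (π ∘ VQ.vz x (γ • z) v)} ∧ cl (π ∘ VQ.vz x (γ • z) v) = c} = ∅ := by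
        rw [eq_empty_iff_forall_notMem]
        intro v hv
        exact he ⟨v, hv⟩
      refine le_trans (le_of_eq ?_) (zero_le (a := V ^ n))
      show VQ.mZ m n {v : Fin n → Z | v ∈ {v | Chn (VQ.vz x (γ • z) v) ∧ UndA Y χ K t (n + 1) nc (π ∘ w) (π ∘ VQ.vz x (γ • z) v)} ∧ cl (π ∘ VQ.vz x (γ • z) v) = c} = 0
      rw [this]
      exact measure_empty

theorem UNDA_proof (hCLSA : CLSA_stmt) : UNDA_stmt := by
  intro C c0 hC hc0 hc1 eps heps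
  obtain ⟨C', ρ10, hC', hρ10, hρ8, hρc, H⟩ := hCLSA C c0 hC hc0 hc1 eps heps
  refine ⟨C', ρ10, hC', hρ10, hρ8, hρc, ?_⟩
  intro Γ X S Z _ _ _ _ _ m _ Y π ρ ρ1 r K t r' V J N nc χ Chn hY hNet hN hρ hr hr1 hρ1 ht hlog hK hnc hπ hJP hrig hvol x z w hw0 hw
  obtain ⟨n, rfl⟩ : ∃ n, N = n + 1 := ⟨N - 1, by omega⟩
  obtain ⟨M, cl, hM, hcl⟩ := H Γ X S Y ρ ρ1 r K t J (n + 1) nc χ (π x) (π z) (π ∘ w) hY hNet hN hρ hr hr1 hρ1 ht hlog hK hnc (hJP w hw)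
  have hmain := UNDA_core m hc0 hY π hπ r K t r' eps V χ n nc M Chn x z w cl hJP hrig hvol hcl
  refine le_trans hmain ?_
  have hMe : (M : ENNReal) ≤ ENNReal.ofReal ((C' * (((n + 1 : ℕ) : ℝ) * t + 1)) ^ (C' * ((n + 1 : ℕ) : ℝ) * t / Real.log (1 / ρ1) + 3)) := by
    rw [← ENNReal.ofReal_natCast M]
    exact ENNReal.ofReal_le_ofReal hM
  exact mul_le_mul' hMe le_rfl

end

end Pool.Agent.VD
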